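import Pool.Graph.R_seed8.Helper294.OSt.Main
import Pool.Graph.R_seed8.Helper294.Ore.Main
import Pool.Graph.R_seed8.Helper294.Ore.M_cs_noeth

/-! Helper: `R*` implies `O*` for locally (abelian-by-nilpotent) groups (as in the hand-in MP_22afe8_al.LocallyRStar). -/

set_option autoImplicit false
set_option linter.all false

namespace Pool.Agent.KS6_89.OStar

open H294OStar

/-- `P` is the set of elements `> 1` of a bi-invariant partial order on `G`. -/
def OrderCone {G : Type} [Group G] (P : Set G) : Prop :=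
  (∀ a ∈ P, ∀ b ∈ P, a * b ∈ P) ∧ (∀ a ∈ P, ∀ g : G, g * a * g⁻¹ ∈ P) ∧ (1 : G) ∉ P

/-- `P` is the set of elements `> 1` of a bi-invariant total order on `G`. -/
def TotalOrderCone {G : Type} [Group G] (P : Set G) : Prop :=
  OrderCone P ∧ ∀ g : G, g ≠ 1 → g ∈ P ∨ g⁻¹ ∈ P

/-- `G` is orderable. -/
def Orderable (G : Type) [Group G] : Prop := ∃ P : Set G, TotalOrderCone P

/-- `G` is an `O*`-group: it is orderable and every partial order extends to a total order. -/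
def IsOStar (G : Type) [Group G] : Prop :=
  Orderable G ∧ ∀ Q : Set G, OrderCone Q → ∃ P : Set G, Q ⊆ P ∧ TotalOrderCone P

/-- `G` is an `R*`-group: it has no generalised torsion. -/
def IsRStar (G : Type) [Group G] : Prop :=
  ∀ g : G, g ≠ 1 → ∀ l : List G, l ≠ [] → (l.map fun x => x⁻¹ * g * x).prod ≠ 1

/-- `G` is abelian-by-nilpotent. -/
def AbelianByNilpotent (G : Type) [Group G] : Prop :=
  ∃ N : Subgroup G, ∃ _ : N.Normal, (∀ a ∈ N, ∀ b ∈ N, a * b = b * a) ∧ Group.IsNilpotent (G ⧸ N)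

/-- Every finitely generated subgroup of `G` is abelian-by-nilpotent. -/
def LocallyAbelianByNilpotent (G : Type) [Group G] : Prop :=
  ∀ H : Subgroup G, H.FG → AbelianByNilpotent H

theorem noncomp_aux' {G : Type} [Group G] (P : Set G) (hP : Cone P)
    (hmax : ∀ P' : Set G, Cone P' → P ⊆ P' → P' ⊆ P)
    (hR0 : ∀ g : G, g ≠ 1 → ¬ NS g 1) (g : G) (hg1 : g ≠ 1) (hg : g ∉ P) :
    ∃ s : G, NS g s ∧ s⁻¹ ∈ P := by
  by_contra hcon
  push Not at hcon
  have hns1 : ¬ NS g 1 := hR0 g hg1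
  set Q : Set G := {x | x ∈ P ∨ NS g x ∨ ∃ p ∈ P, ∃ s, NS g s ∧ x = p * s} with hQ
  have hQc : Cone Q := by
    refine ⟨?_, ?_, ?_⟩
    · rintro a (ha | ha | ⟨p, hp, s, hs, rfl⟩) b (hb | hb | ⟨p', hp', s', hs', rfl⟩)
      · exact Or.inl (hP.mul _ ha _ hb)
      · exact Or.inr (Or.inr ⟨a, ha, b, hb, rfl⟩)
      · exact Or.inr (Or.inr ⟨a * p', hP.mul _ ha _ hp', s', hs', by group⟩)
      · exact Or.inr (Or.inr ⟨a * b * a⁻¹, hP.conj _ hb a, a, ha, by group⟩)
      · exact Or.inr (Or.inl (NS.mul _ _ ha hb))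
      · exact Or.inr (Or.inr ⟨a * p' * a⁻¹, hP.conj _ hp' a, a * s', NS.mul _ _ ha hs', by group⟩)
      · exact Or.inr (Or.inr ⟨p * (s * b * s⁻¹), hP.mul _ hp _ (hP.conj _ hb s), s, hs, by group⟩)
      · exact Or.inr (Or.inr ⟨p, hp, s * b, NS.mul _ _ hs hb, by group⟩)
      · exact Or.inr (Or.inr ⟨p * (s * p' * s⁻¹), hP.mul _ hp _ (hP.conj _ hp' s), s * s',
          NS.mul _ _ hs hs', by group⟩)
    · rintro a (ha | ha | ⟨p, hp, s, hs, rfl⟩) y
      · exact Or.inl (hP.conj _ ha y)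
      · exact Or.inr (Or.inl (NS_conj ha y))
      · exact Or.inr (Or.inr ⟨y * p * y⁻¹, hP.conj _ hp y, y * s * y⁻¹, NS_conj hs y, by group⟩)
    · rintro (h | h | ⟨p, hp, s, hs, h⟩)
      · exact hP.one h
      · exact hns1 h
      · apply hcon s hs
        have : s⁻¹ = p := (eq_inv_of_mul_eq_one_left h.symm).symm
        rw [this]; exact hp
  have hPQ : P ⊆ Q := fun x hx => Or.inl hx
  have hgQ : g ∈ Q := Or.inr (Or.inl (by
    have := NS.conj (g := g) 1
    simpa using this))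
  exact hg (hmax Q hQc hPQ hgQ)

theorem noncomp' {G : Type} [Group G] (P : Set G) (hP : Cone P) (hmax : ∀ P' : Set G, Cone P' → P ⊆ P' → P' ⊆ P)
    (hR0 : ∀ g : G, g ≠ 1 → ¬ NS g 1) (g : G) (hg1 : g ≠ 1) (hg : g ∉ P) (hg' : g⁻¹ ∉ P) :
    ∃ s t : G, NS g s ∧ NS g t ∧ s⁻¹ ∈ P ∧ t ∈ P := by
  obtain ⟨s, hs, hs'⟩ := noncomp_aux' P hP hmax hR0 g hg1 hg
  obtain ⟨t, ht, ht'⟩ := noncomp_aux' P hP hmax hR0 g⁻¹ (by simpa using hg1) hg'
  exact ⟨s, t⁻¹, hs, NS_inv ht, hs', ht'⟩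

/-- the finitely generated case, given the Ore condition for `ℕ[G/A]` -/
theorem fg_case' {G : Type} [Group G] (A : Subgroup G) [hA : A.Normal] (hAab : ∀ a ∈ A, ∀ b ∈ A, a * b = b * a)
    (hnil : Group.IsNilpotent (G ⧸ A)) (hsub : ∀ H : Subgroup (G ⧸ A), H.FG)
    (hOre : ∀ f g : MonoidAlgebra ℕ (G ⧸ A), f ≠ 0 → g ≠ 0 →
      ∃ s t : MonoidAlgebra ℕ (G ⧸ A), s ≠ 0 ∧ t ≠ 0 ∧ s * f = t * g)
    (hR0 : ∀ g : G, g ≠ 1 → ¬ NS g 1) (P0 : Set G) (hP0 : Cone P0) :
    ∃ P : Set G, P0 ⊆ P ∧ Cone P ∧ Total P := by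
  obtain ⟨P, hPP, hP, hmax⟩ := exists_max_cone P0 hP0
  refine ⟨P, hPP, hP, ?_⟩
  by_contra hnt
  have hR := fun (N C : Subgroup G) (h1 : N.Normal) (h2 : C.Normal) (h3 : C ≤ N) (h4 : ∃ m, LS N m ≤ C)
    (h5 : ∀ h ∈ N, ∀ n : ℕ, 0 < n → h ^ n ∈ C → h ∈ C) (g U : G) (h6 : g ∈ N) (h7 : NS g U) (h8 : U ∈ C) =>
    rel_torsion N C h1 h2 h3 h4 h5 g U h6 h7 h8
  -- `A` is comparable
  have hAt : ∀ a ∈ A, a = 1 ∨ a ∈ P ∨ a⁻¹ ∈ P := by
    intro a ha
    by_contra hcon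
    push Not at hcon
    obtain ⟨s, t, hs, ht, hsP, htP⟩ := noncomp' P hP hmax hR0 a hcon.1 hcon.2.1 hcon.2.2
    obtain ⟨U, V, hU, hV, hUV⟩ := ore_common A A ⊥ hA hA inferInstance bot_le
      (fun x hx y hy => by rw [Subgroup.mem_bot, hAab x hx y hy]; group)
      (fun x hx y hy => by rw [Subgroup.mem_bot, hAab x hx y hy]; group) hOre a ha s t hs ht
    rw [Subgroup.mem_bot, inv_mul_eq_one] at hUV
    subst hUV
    exact hP.inv_not (NS.pos hP htP hV) (NS.neg hP hsP hU)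
  obtain ⟨T, g, hT, hAT, hTt, hgT, hg1, hg, hg'⟩ := exists_T A hA hnil P hP hAt hnt
  obtain ⟨s, t, hs, ht, hsP, htP⟩ := noncomp' P hP hmax hR0 g hg1 hg hg'
  set N : Subgroup G := Subgroup.normalClosure {g} with hNdef
  have hN : N.Normal := Subgroup.normalClosure_normal
  have hgN : g ∈ N := Subgroup.subset_normalClosure (Set.mem_singleton g)
  set L : Subgroup G := ⁅N, N⁆ ⊔ ⁅A, N⁆ with hLdef
  have hL : L.Normal := by rw [hLdef]; infer_instance
  have hLN : L ≤ N := sup_le (Subgroup.commutator_le_right N N) (Subgroup.commutator_le_right A N)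
  obtain ⟨U, V, hU, hV, hUV⟩ := ore_common A N L hA hN hL hLN
      (fun x hx y hy => Subgroup.mem_sup_left (Subgroup.commutator_mem_commutator hx hy))
      (fun x hx y hy => Subgroup.mem_sup_right (Subgroup.commutator_mem_commutator hx hy)) hOre g hgN s t hs ht
  have hUg : NS g U := NS.trans hs hU
  have hUP : U⁻¹ ∈ P := NS.neg hP hsP hU
  have hVP : V ∈ P := NS.pos hP htP hV
  have hτP : U⁻¹ * V ∈ P := hP.mul _ hUP _ hVP
  have hNT : ∀ x ∈ N, Cen T x := by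
    have h1 : N ≤ cenSub T hT := by
      haveI := cenSub_normal T hT
      refine Subgroup.normalClosure_le_normal ?_
      rintro x rfl; exact hgT
    exact fun x hx => h1 hx
  have hLT : L ≤ T := by
    rw [hLdef, sup_le_iff]
    constructor
    · rw [Subgroup.commutator_le]
      intro x hx y _
      exact hNT x hx y
    · exact (Subgroup.commutator_le_left A N).trans hAT
  obtain ⟨J, hLev⟩ := exists_J T P (U⁻¹ * V) hT hP hTt (hLT hUV) hτP
  have hm := ls_of_nilpotent A hnil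
  obtain ⟨m, hm'⟩ := id hm
  have hAU := stepA A T P J hA hAab hAT U V hUP hVP hLev (fg_mod A hsub U)
  have hAN := stepA2 A T P J hA hAab hAT _ hLev hm g U hUg hAU hR
  have hk := ls_comm A N J hA hN hLev.hJ.nor m ((asm_LS_mono le_top m).trans hm') hAN
  have hτc := tau_central T P _ J L hLev hL hLT hUV hk
  have hUc := U_central T P J U V hUP hVP hLev hτc (cen_of_NS hT hgT hUg)
  have hNN := final A T P _ J hA hAT hLev hm g U hUg hgT hUc hAN hR
  exact hLev.hτJ ((sup_le hNN hAN : L ≤ J) hUV)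


/-- `R*` in terms of the normal subsemigroup -/
lemma ns_list {G : Type} [Group G] {g s : G} (h : NS g s) :
    ∃ l : List G, l ≠ [] ∧ (l.map fun x => x⁻¹ * g * x).prod = s := by
  induction h with
  | conj x => exact ⟨[x⁻¹], by simp, by simp⟩
  | mul a b _ _ iha ihb =>
    obtain ⟨l1, h1, e1⟩ := iha
    obtain ⟨l2, h2, e2⟩ := ihb
    exact ⟨l1 ++ l2, by simp [h1], by rw [List.map_append, List.prod_append, e1, e2]⟩

lemma ns_map {G : Type} [Group G] (H : Subgroup G) {g s : H} (h : NS g s) : NS (g : G) (s : G) := by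
  induction h with
  | conj x => exact NS.conj (x : G)
  | mul a b _ _ iha ihb => exact NS.mul _ _ iha ihb

/-- the main step: `R*` implies `O*` -/
theorem main {G : Type} [Group G] (hG : LocallyAbelianByNilpotent G) (hR0 : ∀ g : G, g ≠ 1 → ¬ NS g 1)
    (P0 : Set G) (hP0 : Cone P0) : ∃ P : Set G, P0 ⊆ P ∧ Cone P ∧ Total P := by
  obtain ⟨P, hPP, hP, hmax⟩ := exists_max_cone P0 hP0
  refine ⟨P, hPP, hP, ?_⟩
  intro g hg1
  by_contra hcon
  push Not at hcon
  obtain ⟨s, t, hs, ht, hsP, htP⟩ := noncomp' P hP hmax hR0 g hg1 hcon.1 hcon.2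
  refine localize ?_ P hP g s t hs ht hsP htP hg1
  intro H hH PH hPH
  haveI : Group.FG H := (Group.fg_iff_subgroup_fg H).2 hH
  obtain ⟨A, hA, hAab, hnil⟩ := hG H hH
  haveI := hA
  haveI := hnil
  haveI : Group.FG (H ⧸ A) := QuotientGroup.fg A
  refine fg_case' A hAab hnil (fun K => ?_) (fun f g hf hg => H294Ore.ore_nat (H ⧸ A) f g hf hg)
    (fun h hh hns => hR0 (h : G) (fun e => hh (Subtype.ext e)) (ns_map H hns)) PH hPH
  obtain ⟨n, ⟨C⟩⟩ := H294Ore.cs_of_fg_nilpotent (H ⧸ A)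
  exact H294Ore.cs_noeth C K

lemma cone_of {G : Type} [Group G] {P : Set G} (h : OrderCone P) : Cone P := ⟨h.1, h.2.1, h.2.2⟩

lemma of_cone {G : Type} [Group G] {P : Set G} (h : Cone P) : OrderCone P := ⟨h.mul, h.conj, h.one⟩

/-- abelian-by-(locally nilpotent) groups are locally abelian-by-nilpotent -/
theorem local_of {G : Type} [Group G] (N : Subgroup G) [N.Normal] (hab : ∀ a ∈ N, ∀ b ∈ N, a * b = b * a)
    (hloc : ∀ K : Subgroup (G ⧸ N), K.FG → Group.IsNilpotent K) : LocallyAbelianByNilpotent G := by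
  intro H hH
  haveI : Group.FG H := (Group.fg_iff_subgroup_fg H).2 hH
  haveI hAn : (N.subgroupOf H).Normal := Subgroup.normal_subgroupOf
  refine ⟨N.subgroupOf H, hAn, fun a ha b hb => Subtype.ext (hab _ ha _ hb), ?_⟩
  let f : (H ⧸ N.subgroupOf H) →* (G ⧸ N) := QuotientGroup.map (N.subgroupOf H) N H.subtype le_rfl
  haveI : Group.FG (H ⧸ N.subgroupOf H) := QuotientGroup.fg (N.subgroupOf H)
  have hfg : f.range.FG := (Group.fg_iff_subgroup_fg f.range).1 inferInstance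
  haveI := hloc f.range hfg
  refine Subgroup.isNilpotent_of_ker_le_center f.rangeRestrict ?_
  intro x hx
  obtain ⟨y, rfl⟩ := QuotientGroup.mk_surjective x
  rw [MonoidHom.mem_ker] at hx
  have h1 : ((H.subtype y : G) : G ⧸ N) = 1 := congrArg Subtype.val hx
  have h2 : (y : G) ∈ N := (QuotientGroup.eq_one_iff _).1 h1
  have h3 : ((y : H) : H ⧸ N.subgroupOf H) = 1 := (QuotientGroup.eq_one_iff y).2 (Subgroup.mem_subgroupOf.2 h2)
  rw [h3]; exact Subgroup.one_mem _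


end Pool.Agent.KS6_89.OStar
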